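import Pool.Agent.Helper57.TW.Goals
import Pool.Agent.Helper8.CR.RM

/-! Packet T74B-XP: the exceptional prime. -/

set_option autoImplicit false

open Finset

namespace Pool.Agent.Helper86.TW

open Pool.Agent.Helper88.CR (rg LL ch)

/-- A divisor of `q0 * d`, `d` squarefree, with small prime factors. -/
theorem dvd_of_small {q0 d r M : ℕ} (hd : Squarefree d) (hr : r ∣ q0 * d)
    (hp : ∀ p, p.Prime → p ∣ r → p < M) :
    r ∣ q0 * ∏ p ∈ (range M).filter Nat.Prime, p := by
  obtain ⟨k1, k2, h1, h2, h3⟩ := (Nat.dvd_mul).1 hr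
  rw [← h3]
  refine mul_dvd_mul h1 ?_
  have hk2 : Squarefree k2 := hd.squarefree_of_dvd h2
  rw [← Nat.prod_primeFactors_of_squarefree hk2]
  refine Finset.prod_dvd_prod_of_subset _ _ _ ?_
  intro p hpp
  rw [Nat.mem_primeFactors] at hpp
  rw [Finset.mem_filter, Finset.mem_range]
  refine ⟨hp p hpp.1 ?_, hpp.1⟩
  rw [← h3]
  exact hpp.2.1.mul_left k1

theorem xp (hFX : Pool.Agent.Helper57.TW.StmtFX) (hLO : Pool.Agent.Helper88.CR.StmtLO) :
    Pool.Agent.Helper57.TW.StmtXP := by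
  obtain ⟨cF, hcF0, hcF1, hF⟩ := hFX
  obtain ⟨cL, hcL0, hcL1, zL, hL⟩ := hLO
  refine ⟨min cF cL, lt_min hcF0 hcL0, (min_le_left _ _).trans hcF1, ?_⟩
  intro q0 N hq0
  set M : ℕ := max N (q0 + 1) with hM
  set R : ℕ := q0 * ∏ p ∈ (range M).filter Nat.Prime, p with hR
  have hRpos : R ≠ 0 := by
    rw [hR]
    refine mul_ne_zero (by omega) ?_
    rw [Finset.prod_ne_zero_iff]
    intro p hp
    exact (Finset.mem_filter.1 hp).2.ne_zero
  haveI : NeZero R := ⟨hRpos⟩
  obtain ⟨zF, hF'⟩ := hF R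
  refine ⟨max (max zF zL) R, ?_⟩
  intro z hz
  have hzF : zF ≤ z := le_trans (le_trans (le_max_left _ _) (le_max_left _ _)) hz
  have hzL : zL ≤ z := le_trans (le_trans (le_max_right _ _) (le_max_left _ _)) hz
  have hzR : R ≤ z := le_trans (le_max_right _ _) hz
  have hlog : 0 ≤ Real.log z := Real.log_natCast_nonneg z
  have hregF : ∀ s : ℂ, s.re ≤ 1 + min cF cL / Real.log z → s.re ≤ 1 + cF / Real.log z := by
    intro s hs
    refine hs.trans ?_
    have := div_le_div_of_nonneg_right (min_le_left cF cL) hlog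
    linarith
  have hregL : ∀ s : ℂ, s.re ≤ 1 + min cF cL / Real.log z → s.re ≤ 1 + cL / Real.log z := by
    intro s hs
    refine hs.trans ?_
    have := div_le_div_of_nonneg_right (min_le_right cF cL) hlog
    linarith
  by_cases hbad : ∃ d1 : ℕ, Squarefree d1 ∧ (q0 * d1) ^ 16 ≤ z ∧
      ∃ χ1 : DirichletCharacter ℂ (q0 * d1), χ1 ≠ 1 ∧ ∃ s : ℂ, 1 < s.re ∧
        s.re ≤ 1 + min cF cL / Real.log z ∧ |s.im| ≤ (z : ℝ) ^ (1 / 32 : ℝ) ∧
        ‖LL (ch z χ1) 0 s‖ < min cF cL
  swap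
  · obtain ⟨p0, hp0, hpp⟩ := Nat.exists_infinite_primes M
    refine ⟨p0, hpp, (le_max_left _ _).trans hp0, ?_, ?_⟩
    · intro hdvd
      have h1 := Nat.le_of_dvd (by omega) hdvd
      have h2 : q0 + 1 ≤ M := le_max_right _ _
      omega
    · intro d hd _ hdz χ hχ s hs1 hs2 hs3
      by_contra hcon
      exact hbad ⟨d, hd, hdz, χ, hχ, s, hs1, hs2, hs3, not_le.1 hcon⟩
  · obtain ⟨d1, hd1, hd1z, χ1, hχ1, s1, hs11, hs12, hs13, hlt⟩ := hbad
    have hd1pos : d1 ≠ 0 := hd1.ne_zero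
    haveI hNZ1 : NeZero (q0 * d1) := ⟨mul_ne_zero (by omega) hd1pos⟩
    have hq1le : q0 * d1 ≤ z := by
      refine le_trans ?_ hd1z
      exact Nat.le_self_pow (by norm_num) _
    have hcond : χ1.conductor ∣ q0 * d1 := DirichletCharacter.conductor_dvd_level χ1
    have hprim : DirichletCharacter.changeLevel hcond χ1.primitiveCharacter = χ1 :=
      DirichletCharacter.changeLevel_primitiveCharacter χ1
    have hex : ∃ p0 : ℕ, p0.Prime ∧ p0 ∣ χ1.conductor ∧ M ≤ p0 := by
      by_contra hno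
      push Not at hno
      have hrR : χ1.conductor ∣ R := dvd_of_small hd1 hcond hno
      have hne : DirichletCharacter.changeLevel hrR χ1.primitiveCharacter ≠ 1 := by
        intro h
        rw [DirichletCharacter.changeLevel_eq_one_iff] at h
        apply hχ1
        rw [← hprim, h, DirichletCharacter.changeLevel_one]
      have h1 := hF' z hzF _ hne s1 hs11 (hregF s1 hs12) hs13
      rw [Pool.Agent.Helper8.CR.ll_changeLevel hrR hzR] at h1
      rw [← hprim, Pool.Agent.Helper8.CR.ll_changeLevel hcond hq1le] at hlt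
      exact absurd (h1.trans_lt hlt) (not_lt.2 (min_le_left _ _))
    obtain ⟨p0, hp0, hp0c, hp0M⟩ := hex
    have hp0q : ¬ p0 ∣ q0 := by
      intro hdvd
      have h1 := Nat.le_of_dvd (by omega) hdvd
      have h2 : q0 + 1 ≤ M := le_max_right _ _
      omega
    refine ⟨p0, hp0, (le_max_left _ _).trans hp0M, hp0q, ?_⟩
    intro d hd hp0d hdz χ hχ s hs1 hs2 hs3
    by_contra hcon
    rw [not_le] at hcon
    haveI hNZ : NeZero (q0 * d) := ⟨mul_ne_zero (by omega) hd.ne_zero⟩
    haveI hNZq : NeZero ((q0 * d) * (q0 * d1)) := ⟨mul_ne_zero hNZ.out hNZ1.out⟩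
    have hq8 : ((q0 * d) * (q0 * d1)) ^ 8 ≤ z := by
      have h1 : (((q0 * d) * (q0 * d1)) ^ 8) ^ 2 ≤ z ^ 2 := by
        calc (((q0 * d) * (q0 * d1)) ^ 8) ^ 2 = (q0 * d) ^ 16 * (q0 * d1) ^ 16 := by ring
          _ ≤ z * z := Nat.mul_le_mul hdz hd1z
          _ = z ^ 2 := (pow_two z).symm
      exact (Nat.pow_le_pow_iff_left (by norm_num)).1 h1
    have hqle : (q0 * d) * (q0 * d1) ≤ z := by
      refine le_trans ?_ hq8
      exact Nat.le_self_pow (by norm_num) _
    obtain ⟨χ₀, hχ₀⟩ := hL z ((q0 * d) * (q0 * d1)) hzL hq8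
    have hA : q0 * d ∣ (q0 * d) * (q0 * d1) := dvd_mul_right _ _
    have hB : q0 * d1 ∣ (q0 * d) * (q0 * d1) := dvd_mul_left _ _
    have e1 : DirichletCharacter.changeLevel hA χ = χ₀ := by
      by_contra hne
      have h1 := hχ₀ (DirichletCharacter.changeLevel hA χ)
        (fun h => hχ ((DirichletCharacter.changeLevel_eq_one_iff hA).1 h)) hne s hs1
        (hregL s hs2) hs3
      rw [Pool.Agent.Helper8.CR.ll_changeLevel hA hqle] at h1
      exact absurd (h1.trans_lt hcon) (not_lt.2 (min_le_right _ _))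
    have e2 : DirichletCharacter.changeLevel hB χ1 = χ₀ := by
      by_contra hne
      have h1 := hχ₀ (DirichletCharacter.changeLevel hB χ1)
        (fun h => hχ1 ((DirichletCharacter.changeLevel_eq_one_iff hB).1 h)) hne s1 hs11
        (hregL s1 hs12) hs13
      rw [Pool.Agent.Helper8.CR.ll_changeLevel hB hqle] at h1
      exact absurd (h1.trans_lt hlt) (not_lt.2 (min_le_right _ _))
    have e3 : χ.conductor = χ1.conductor := by
      rw [← DirichletCharacter.conductor_changeLevel χ hA,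
        ← DirichletCharacter.conductor_changeLevel χ1 hB, e1, e2]
    have h4 : p0 ∣ q0 * d := by
      refine hp0c.trans ?_
      rw [← e3]
      exact DirichletCharacter.conductor_dvd_level χ
    rcases (hp0.dvd_mul).1 h4 with h5 | h5
    · exact hp0q h5
    · exact hp0d h5

end Pool.Agent.Helper86.TW
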