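import Pool.Agent.Helper76.TW.Goals
import Pool.Agent.Helper37.PP.HM

/-! Packet TW-SB: upper bound for the number of the primes `p` with `AT K p`. -/

set_option autoImplicit false

open Finset Filter Topology

open scoped Classical

namespace Pool.Agent.Helper86.TW

open Pool.Agent.Helper88.PP (pr Rg om)
open Pool.Agent.Helper88.RR (gg)
open Pool.Agent.Helper76.TW (AT StmtPC StmtSB)

theorem gg_le_sq {y z : ℕ} (hy : 2 ≤ y) : gg y z 2 ≤ om y z ^ 2 := by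
  unfold gg om
  rw [← Finset.prod_pow]
  refine Finset.prod_le_prod ?_ ?_
  · intro p hp
    unfold pr at hp
    rw [Finset.mem_filter, Finset.mem_Ioc] at hp
    have h1 : (2 : ℝ) < p := by exact_mod_cast lt_of_le_of_lt hy hp.1.1
    have h2 : (2 : ℝ) / p ≤ 1 := by
      rw [div_le_one (by linarith)]
      exact h1.le
    push_cast
    linarith
  · intro p hp
    push_cast
    have h3 : (1 - 1 / (p : ℝ)) ^ 2 = 1 - 2 / p + (1 / (p : ℝ)) ^ 2 := by ring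
    rw [h3]
    have := sq_nonneg (1 / (p : ℝ))
    linarith

/-- The root. -/
theorem root (A : ℕ) (hA : 1 ≤ A) (W x : ℕ) (hx : (W + 4) ^ A ≤ x) :
    ∃ w : ℕ, W ≤ w ∧ 2 ≤ w ∧ w ^ A ≤ x ∧ Real.log x ≤ 2 * A * Real.log w := by
  set v : ℝ := (x : ℝ) ^ (1 / (A : ℝ)) with hv
  have hA0 : (A : ℝ) ≠ 0 := by
    have : (0 : ℝ) < A := by exact_mod_cast hA
    exact this.ne'
  have hvA : v ^ A = x := by
    rw [hv, ← Real.rpow_natCast, ← Real.rpow_mul (Nat.cast_nonneg _), one_div,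
      inv_mul_cancel₀ hA0, Real.rpow_one]
  have hv0 : 0 ≤ v := Real.rpow_nonneg (Nat.cast_nonneg _) _
  have hvW : ((W + 4 : ℕ) : ℝ) ≤ v := by
    have h1 : ((W + 4 : ℕ) : ℝ) ^ A ≤ v ^ A := by
      rw [hvA]
      exact_mod_cast hx
    exact le_of_pow_le_pow_left₀ (by omega) hv0 h1
  have hv4 : (4 : ℝ) ≤ v := by
    refine le_trans ?_ hvW
    push_cast
    have : (0 : ℝ) ≤ W := Nat.cast_nonneg _
    linarith
  refine ⟨⌊v⌋₊, ?_, ?_, ?_, ?_⟩
  · refine Nat.le_floor ?_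
    refine le_trans ?_ hvW
    push_cast
    linarith
  · refine Nat.le_floor ?_
    push_cast
    linarith
  · have h1 : ((⌊v⌋₊ : ℕ) : ℝ) ^ A ≤ v ^ A :=
      pow_le_pow_left₀ (Nat.cast_nonneg _) (Nat.floor_le hv0) A
    rw [hvA] at h1
    exact_mod_cast h1
  · have h1 : v < (⌊v⌋₊ : ℝ) + 1 := Nat.lt_floor_add_one v
    have h2 : v ≤ (⌊v⌋₊ : ℝ) ^ 2 := by
      have h3 : v - 1 ≤ (⌊v⌋₊ : ℝ) := by linarith
      have h4 : (v - 1) ^ 2 ≤ (⌊v⌋₊ : ℝ) ^ 2 := pow_le_pow_left₀ (by linarith) h3 2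
      nlinarith
    have h5 : Real.log v ≤ 2 * Real.log (⌊v⌋₊ : ℝ) := by
      have h6 := Real.log_le_log (by linarith : (0 : ℝ) < v) h2
      rw [Real.log_pow] at h6
      push_cast at h6
      exact h6
    have h7 : Real.log x = A * Real.log v := by
      rw [← hvA, Real.log_pow]
    rw [h7]
    have h8 : (0 : ℝ) ≤ A := Nat.cast_nonneg _
    calc (A : ℝ) * Real.log v ≤ A * (2 * Real.log (⌊v⌋₊ : ℝ)) :=
          mul_le_mul_of_nonneg_left h5 h8
      _ = 2 * A * Real.log (⌊v⌋₊ : ℝ) := by ring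

/-- The primes above `√x` satisfy the sieve conditions. -/
theorem at_sieve {K W0 w x p : ℕ} (hK : 1 ≤ K) (hW0 : 4 ≤ W0) (hw : (w ^ K) ^ 2 ≤ x)
    (hp : AT K p) (hps : Nat.sqrt x < p) :
    ∀ r ∈ pr W0 w, ¬ p ≡ 0 [MOD r] ∧ ¬ p ≡ r - 2 [MOD r] := by
  intro r hr
  unfold pr at hr
  rw [Finset.mem_filter, Finset.mem_Ioc] at hr
  obtain ⟨⟨hr1, hr2⟩, hrp⟩ := hr
  have h1 : w ^ K ≤ Nat.sqrt x := by
    rw [Nat.le_sqrt]
    rw [← pow_two]
    exact hw
  have h2 : r ^ K ≤ w ^ K := Nat.pow_le_pow_left hr2 K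
  have h3 : r ≤ r ^ K := Nat.le_self_pow (by omega) r
  refine ⟨?_, ?_⟩
  · intro h
    have h4 : r ∣ p := (Nat.modEq_zero_iff_dvd).1 h
    have h5 : r = p := (Nat.prime_dvd_prime_iff_eq hrp hp.1).1 h4
    omega
  · intro h
    have h4 : p + 2 ≡ r - 2 + 2 [MOD r] := Nat.ModEq.add_right 2 h
    rw [Nat.sub_add_cancel (by omega)] at h4
    have h5 : r ∣ p + 2 := by
      rw [← Nat.modEq_zero_iff_dvd]
      exact h4.trans ((Nat.modEq_zero_iff_dvd).2 dvd_rfl)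
    exact hp.2 r hrp (by omega) h5

theorem sqrt_le_log {x : ℕ} (hx : 2 ≤ x) :
    ((Nat.sqrt x : ℕ) : ℝ) ≤ 16 * (x / Real.log x ^ 2) := by
  have hx0 : (0 : ℝ) < x := by
    have : 0 < x := by omega
    exact_mod_cast this
  have hlog : 0 < Real.log x := Real.log_pos (by exact_mod_cast hx)
  have h1 : Real.log x ≤ (x : ℝ) ^ (1 / 4 : ℝ) / (1 / 4) :=
    Real.log_le_rpow_div hx0.le (by norm_num)
  have h2 : Real.log x ^ 2 ≤ 16 * √(x : ℝ) := by
    have h3 : Real.log x ^ 2 ≤ ((x : ℝ) ^ (1 / 4 : ℝ) / (1 / 4)) ^ 2 :=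
      pow_le_pow_left₀ hlog.le h1 2
    have h4 : ((x : ℝ) ^ (1 / 4 : ℝ) / (1 / 4)) ^ 2 = 16 * √(x : ℝ) := by
      rw [div_pow, ← Real.rpow_natCast ((x : ℝ) ^ (1 / 4 : ℝ)) 2, ← Real.rpow_mul hx0.le,
        Real.sqrt_eq_rpow]
      norm_num
      ring
    rw [h4] at h3
    exact h3
  have h5 : ((Nat.sqrt x : ℕ) : ℝ) ≤ √(x : ℝ) := Real.nat_sqrt_le_real_sqrt
  refine h5.trans ?_
  rw [mul_div_assoc', le_div_iff₀ (by positivity)]
  calc √(x : ℝ) * Real.log x ^ 2 ≤ √(x : ℝ) * (16 * √(x : ℝ)) :=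
        mul_le_mul_of_nonneg_left h2 (Real.sqrt_nonneg _)
    _ = 16 * (√(x : ℝ) * √(x : ℝ)) := by ring
    _ = 16 * x := by rw [Real.mul_self_sqrt hx0.le]

theorem sb (h1 : StmtPC) : StmtSB := by
  obtain ⟨W0, W1, D0, hW0, hW01, hPC⟩ := h1
  obtain ⟨C, hC, hmp⟩ := Pool.Agent.Helper37.PP.mp
  intro K hK
  set A : ℕ := 2 * K * (D0 + 1) with hA
  have hA1 : 1 ≤ A := by
    rw [hA]
    exact Nat.succ_le_of_lt (by positivity)
  refine ⟨16 + 8 * (A : ℝ) ^ 2 * C ^ 2 * Real.log W0 ^ 2, (W1 + 4) ^ A, ?_⟩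
  intro x hx
  obtain ⟨w, hwW, hw2, hwA, hwl⟩ := root A hA1 W1 x hx
  have hx4 : 2 ≤ x := by
    refine le_trans ?_ hx
    calc 2 ≤ W1 + 4 := by omega
      _ ≤ (W1 + 4) ^ A := Nat.le_self_pow (by omega) _
  have hwK : (w ^ K) ^ 2 ≤ x := by
    refine le_trans ?_ hwA
    rw [← pow_mul]
    refine Nat.pow_le_pow_right (by omega) ?_
    rw [hA]
    nlinarith
  have hwD : 1 * w ^ D0 ≤ x := by
    rw [one_mul]
    refine le_trans ?_ hwA
    refine Nat.pow_le_pow_right (by omega) ?_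
    rw [hA]
    nlinarith
  have hcond : ∀ p ∈ pr W0 w, ¬ p ∣ 1 ∧ ¬ (fun _ => 0 : ℕ → ℕ) p ≡ (fun r => r - 2) p [MOD p] := by
    intro p hp
    unfold pr at hp
    rw [Finset.mem_filter, Finset.mem_Ioc] at hp
    refine ⟨fun h => ?_, fun h => ?_⟩
    · have := Nat.le_of_dvd one_pos h
      omega
    · have h5 : p ∣ p - 2 := (Nat.modEq_zero_iff_dvd).1 h.symm
      have := Nat.le_of_dvd (by omega) h5
      omega
  have hup := (hPC w x 1 0 0 (fun _ => 0) (fun r => r - 2) hwW le_rfl hcond hwD).2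
  have hsub : (Icc 1 x).filter (fun p => AT K p) ⊆ Icc 1 (Nat.sqrt x) ∪
      (Ioc 0 (0 + x)).filter (fun h => h ≡ 0 [MOD 1] ∧
        ∀ p ∈ pr W0 w, ¬ h ≡ (fun _ => 0 : ℕ → ℕ) p [MOD p] ∧ ¬ h ≡ (fun r => r - 2) p [MOD p]) := by
    intro p hp
    rw [Finset.mem_filter, Finset.mem_Icc] at hp
    rw [Finset.mem_union, Finset.mem_Icc, Finset.mem_filter, Finset.mem_Ioc]
    rcases Nat.lt_or_ge (Nat.sqrt x) p with h | h
    · right
      refine ⟨⟨by omega, by omega⟩, Nat.modEq_one, ?_⟩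
      exact at_sieve hK hW0 hwK hp.2 h
    · left
      exact ⟨hp.1.1, h⟩
  have hcard := (Finset.card_le_card hsub).trans (Finset.card_union_le _ _)
  have hcard' : (((Icc 1 x).filter (fun p => AT K p)).card : ℝ) ≤ (Nat.sqrt x : ℕ) +
      (((Ioc 0 (0 + x)).filter (fun h => h ≡ 0 [MOD 1] ∧
        ∀ p ∈ pr W0 w, ¬ h ≡ (fun _ => 0 : ℕ → ℕ) p [MOD p] ∧
          ¬ h ≡ (fun r => r - 2) p [MOD p])).card : ℝ) := by
    have := (Nat.cast_le (α := ℝ)).2 hcard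
    push_cast at this
    rw [Nat.card_Icc] at this
    simpa using this
  have hlogx : 0 < Real.log x := Real.log_pos (by exact_mod_cast hx4)
  have hlogw : 0 < Real.log w := Real.log_pos (by exact_mod_cast hw2)
  have hgg : gg W0 w 2 ≤ 4 * (A : ℝ) ^ 2 * C ^ 2 * Real.log W0 ^ 2 / Real.log x ^ 2 := by
    refine (gg_le_sq (by omega)).trans ?_
    have hom0 : 0 ≤ om W0 w := by
      unfold om
      refine Finset.prod_nonneg ?_
      intro p hp
      unfold pr at hp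
      rw [Finset.mem_filter] at hp
      have h6 : (1 : ℝ) ≤ p := by exact_mod_cast hp.2.one_lt.le
      have h7 : (1 : ℝ) / p ≤ 1 := by
        rw [div_le_one (by linarith)]
        exact h6
      linarith
    have h8 := hmp W0 w (by omega) (by omega)
    have hlW0 : 0 ≤ Real.log W0 := Real.log_natCast_nonneg _
    have h9 : C * (Real.log W0 / Real.log w) ≤ C * (Real.log W0 * (2 * A) / Real.log x) := by
      refine mul_le_mul_of_nonneg_left ?_ hC.le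
      rw [div_le_div_iff₀ hlogw hlogx]
      calc Real.log W0 * Real.log x ≤ Real.log W0 * (2 * A * Real.log w) :=
            mul_le_mul_of_nonneg_left hwl hlW0
        _ = Real.log W0 * (2 * A) * Real.log w := by ring
    have h10 := pow_le_pow_left₀ hom0 (h8.trans h9) 2
    refine h10.trans (le_of_eq ?_)
    field_simp
    ring
  have hx0 : (0 : ℝ) ≤ x := Nat.cast_nonneg _
  refine hcard'.trans ?_
  have h11 := sqrt_le_log hx4
  have h12 : 2 * ((x : ℝ) / (1 : ℕ) * gg W0 w 2)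
      ≤ 2 * (x * (4 * (A : ℝ) ^ 2 * C ^ 2 * Real.log W0 ^ 2 / Real.log x ^ 2)) := by
    rw [Nat.cast_one, div_one]
    refine mul_le_mul_of_nonneg_left ?_ (by norm_num)
    exact mul_le_mul_of_nonneg_left hgg hx0
  have h13 := hup.trans h12
  calc _ ≤ 16 * (x / Real.log x ^ 2)
      + 2 * (x * (4 * (A : ℝ) ^ 2 * C ^ 2 * Real.log W0 ^ 2 / Real.log x ^ 2)) :=
        add_le_add h11 h13
    _ = (16 + 8 * (A : ℝ) ^ 2 * C ^ 2 * Real.log W0 ^ 2) * (x / Real.log x ^ 2) := by ring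

end Pool.Agent.Helper86.TW
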