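import Pool.Agent.Helper70.TW.Goals

/-!
# Project TW, packet ALGS: algebraic extensions
-/

namespace Pool.Agent.Helper86.TW

open MvPolynomial Pool.Agent.Helper70.BU Pool.Agent.Helper70.TW

universe u

theorem goalALGS : TRF.{u} → ALGS.{u} := by
  intro hT F K _ _ _ _ ι κ Λ _ _ _ _ _ b α β hMB f hf
  classical
  let S : Set K :=
    Set.range (fun a : Σ l : Λ, {d // d ∈ (f l).support} => (coeff a.2.1 (f a.1)).re) ∪
    Set.range (fun a : Σ l : Λ, {d // d ∈ (f l).support} => (coeff a.2.1 (f a.1)).im)
  have : Finite S := ((Set.finite_range _).union (Set.finite_range _)).to_subtype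
  let E := IntermediateField.adjoin F S
  have : FiniteDimensional F E :=
    IntermediateField.finiteDimensional_adjoin (fun x _ => Algebra.IsIntegral.isIntegral x)
  let W : Submodule F K := Subalgebra.toSubmodule E.toSubalgebra
  have : FiniteDimensional F W := inferInstanceAs (FiniteDimensional F E)
  have hpos : 0 < Module.finrank F W := by
    have : 0 < Module.finrank F E := Module.finrank_pos
    exact this
  have hpow : ∀ m : ℕ, W ^ m ≤ W := by
    intro m
    induction m with
    | zero =>
        rw [pow_zero, Submodule.one_le]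
        exact E.one_mem
    | succ m ih =>
        rw [pow_succ, Submodule.mul_le]
        intro x hx y hy
        exact E.mul_mem (ih hx) hy
  refine hT F K ι κ Λ b α β f W (fun _ => W) (Module.finrank F W) (fun _ => Module.finrank F W)
    (Module.finBasis F W) (fun _ => Module.finBasis F W) hf ?_ (hMB _ hpos)
  intro l d hd x hx
  have hxE : x ∈ E := hpow _ hx
  refine ⟨E.mul_mem (IntermediateField.subset_adjoin F S (Or.inl ⟨⟨l, ⟨d, hd⟩⟩, rfl⟩)) hxE,
    E.mul_mem (IntermediateField.subset_adjoin F S (Or.inr ⟨⟨l, ⟨d, hd⟩⟩, rfl⟩)) hxE⟩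

end Pool.Agent.Helper86.TW
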